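import Mathlib
import Pool.Agent.H14.Birk

namespace Pool.Agent.Results.MP_894476_an.Positive

open MeasureTheory Metric Set Filter Topology
open scoped ENNReal

universe u

section Defs

variable {X : Type u} [MetricSpace X] [MeasurableSpace X]

/-- average of g over the open ball B(x,r) -/
noncomputable def ballAvg (μ : Measure X) (g : X → ℝ) (x : X) (r : ℝ) : ℝ :=
  (μ.real (ball x r))⁻¹ * ∫ y in ball x r, g y ∂μ

/-- the Lebesgue differentiation property -/
def LDP (μ : Measure X) : Prop :=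
  ∀ g : X → ℝ, Integrable g μ → ∀ᵐ x ∂μ, Tendsto (ballAvg μ g x) (𝓝[>] 0) (𝓝 (g x))

/-- ergodic average -/
noncomputable def A (T : X → X) (f : X → ℝ) (k : ℕ) (x : X) : ℝ :=
  (1 / (k : ℝ)) * ∑ j ∈ Finset.range k, f (T^[j] x)

/-- the joint limit of U_{r,k} f (x) as r decreases to 0 and k tends to infinity equals L -/
def JointLim (μ : Measure X) (T : X → X) (f : X → ℝ) (x : X) (L : ℝ) : Prop :=
  ∀ ε : ℝ, 0 < ε → ∃ δ : ℝ, 0 < δ ∧ ∃ K : ℕ, ∀ (r : ℝ) (k : ℕ), 0 < r → r < δ → K ≤ k →
    |ballAvg μ (A T f k) x r - L| < ε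

end Defs

open Pool.Agent.H14.Birk

theorem result (X : Type u) [MetricSpace X] [MeasurableSpace X] [BorelSpace X]
    (μ : Measure X) [IsProbabilityMeasure μ] (hμ : LDP μ) (T : X → X)
    (hT : MeasurePreserving T μ μ) (p : ℝ≥0∞) (hp : 1 < p) (f : X → ℝ) (hf : MemLp f p μ) :
    ∀ᵐ x ∂μ, JointLim μ T f x ((μ[f | MeasurableSpace.invariants T]) x) := by
  have hfi : Integrable f μ := hf.integrable hp.le
  set φ := hfi.1.mk f with hφ
  have he : f =ᵐ[μ] φ := hfi.1.ae_eq_mk
  have hm : Measurable φ := hfi.1.stronglyMeasurable_mk.measurable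
  have hi : Integrable φ μ := hfi.congr he
  have hq : (min p 2) ≠ ⊤ := ne_top_of_le_ne_top (by norm_num) (min_le_right _ _)
  have hq1 : 1 < min p 2 := lt_min hp (by norm_num)
  have hq2 : 1 < (min p 2).toReal := by
    have := (ENNReal.toReal_lt_toReal (by norm_num) hq).2 hq1
    simpa using this
  have hφq : Integrable (fun x => |φ x| ^ (min p 2).toReal) μ :=
    (((memLp_congr_ae he).1 hf).mono_exponent (min_le_left p 2)).integrable_norm_rpow
      (ne_of_gt (lt_trans zero_lt_one hq1)) hq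
  obtain ⟨H, hHm, hHi, hH⟩ := dominated hT hm hq2 hi hφq
  set g := μ[f | MeasurableSpace.invariants T] with hg
  have hgi : Integrable g μ := integrable_condExp
  have hgm : Measurable g :=
    stronglyMeasurable_condExp.measurable.mono (MeasurableSpace.invariants_le T) le_rfl
  set E : ℕ → ℕ → Set X := fun n K =>
    {x | ∃ k, K ≤ k ∧ 1 / ((n : ℝ) + 1) < |avg T φ k x - g x|} with hE
  have hEm : ∀ n K, MeasurableSet (E n K) := by
    intro n K
    simp only [hE, setOf_exists]
    refine MeasurableSet.iUnion fun k => ?_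
    by_cases h : K ≤ k
    · simp only [h, true_and]
      exact measurableSet_lt measurable_const ((avg_meas hT.measurable hm k).sub hgm).abs
    · simp [h]
  set w : ℕ → ℕ → X → ℝ := fun n K => (E n K).indicator fun x => H x + |g x| with hw
  have hwi : ∀ n K, Integrable (w n K) μ := fun n K => (hHi.add hgi.abs).indicator (hEm n K)
  have hbd : ∀ n K k : ℕ, K ≤ k → ∀ᵐ y ∂μ, |avg T f k y - g y| ≤ 1 / ((n : ℝ) + 1) + w n K y := by
    intro n K k hk
    filter_upwards [hH, avg_congr hT he] with y h1 h2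
    rw [h2]
    by_cases hy : y ∈ E n K
    · simp only [hw, indicator_of_mem hy]
      have := abs_sub (avg T φ k y) (g y)
      have h3 : (0 : ℝ) < 1 / ((n : ℝ) + 1) := by positivity
      linarith [h1 k]
    · simp only [hw, indicator_of_notMem hy, add_zero]
      by_contra h
      exact hy ⟨k, hk, not_le.1 h⟩
  have h1 : ∀ᵐ x ∂μ, ∀ n K, Tendsto (ballAvg μ (w n K) x) (𝓝[>] 0) (𝓝 (w n K x)) :=
    ae_all_iff.2 fun n => ae_all_iff.2 fun K => hμ _ (hwi n K)
  filter_upwards [h1, hμ g hgi, birkhoff hT hfi, avg_congr hT he] with x a1 a2 a3 a4 ε hε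
  obtain ⟨n, hn⟩ := exists_nat_one_div_lt (show 0 < ε / 3 by positivity)
  simp only [a4] at a3
  obtain ⟨K, hK⟩ := Metric.tendsto_atTop.1 a3 (1 / ((n : ℝ) + 1)) (by positivity)
  have hx : x ∉ E n K := by
    rintro ⟨k, hk1, hk2⟩
    have := hK k hk1
    rw [Real.dist_eq] at this
    linarith
  have b1 := a1 n K
  have hw0 : w n K x = 0 := indicator_of_notMem hx _
  rw [hw0] at b1
  have b3 := ((Metric.tendsto_nhds.1 b1) (ε / 3) (by positivity)).and
    ((Metric.tendsto_nhds.1 a2) (ε / 3) (by positivity))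
  obtain ⟨δ, hδ, hδ'⟩ := mem_nhdsGT_iff_exists_Ioo_subset.1 b3
  refine ⟨δ, hδ, K, fun r k hr0 hr hk => ?_⟩
  obtain ⟨c1, c2⟩ := hδ' ⟨hr0, hr⟩
  rw [Real.dist_eq] at c1 c2
  have hAi := avg_int hT hfi k
  have c3 : |ballAvg μ (A T f k) x r - ballAvg μ g x r| ≤
      1 / ((n : ℝ) + 1) + ballAvg μ (w n K) x r := by
    have d0 : 0 ≤ (μ.real (ball x r))⁻¹ := inv_nonneg.2 measureReal_nonneg
    change |(μ.real (ball x r))⁻¹ * ∫ y in ball x r, avg T f k y ∂μ - _| ≤ _
    unfold ballAvg
    rw [← mul_sub, abs_mul, abs_of_nonneg d0, ← integral_sub hAi.integrableOn hgi.integrableOn]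
    have d1 : |∫ y in ball x r, (avg T f k y - g y) ∂μ| ≤
        μ.real (ball x r) * (1 / ((n : ℝ) + 1)) + ∫ y in ball x r, w n K y ∂μ := by
      refine (abs_integral_le_integral_abs).trans ?_
      rw [← smul_eq_mul, ← setIntegral_const,
        ← integral_add (integrable_const _).integrableOn (hwi n K).integrableOn]
      exact integral_mono_ae (hAi.sub hgi).abs.integrableOn
        ((integrable_const _).add (hwi n K)).integrableOn (ae_restrict_of_ae (hbd n K k hk))
    refine (mul_le_mul_of_nonneg_left d1 d0).trans ?_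
    rw [mul_add, ← mul_assoc]
    have d2 : (μ.real (ball x r))⁻¹ * μ.real (ball x r) ≤ 1 := inv_mul_le_one
    have d3 : (0 : ℝ) < 1 / ((n : ℝ) + 1) := by positivity
    nlinarith
  rw [abs_lt] at c1 c2 ⊢
  rw [abs_le] at c3
  constructor <;> linarith [c1.1, c1.2, c2.1, c2.2, c3.1, c3.2]

end Pool.Agent.Results.MP_894476_an.Positive
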